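import Pool.Agent.Helper82_Met.Main

/-!
# The metric polytope on nine points has no simple vertex
-/

set_option autoImplicit false

namespace Pool.Agent.Results.MP_faed77_co.NoSimpleVertex

open Pool.Agent.Helper82_Met

/-- Every vertex of the metric polytope `m_9` satisfies at least `37` of the `336` triangle
inequalities with equality; in particular no vertex is simple. -/
theorem result : ∀ v ∈ (metricPolytope 9).extremePoints ℝ, 37 ≤ incidence v :=
  fun v hv => main9 v hv

end Pool.Agent.Results.MP_faed77_co.NoSimpleVertex
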